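import Pool.Agent.OPH.Stmts

set_option autoImplicit false

/-! Squad OPH: powers of the logarithm are small. -/

namespace Pool.Agent.OPH.H72

/-- Powers of the logarithm are small. -/
lemma polylog (C e : ℕ) : ∃ M0 : ℕ, ∀ M : ℕ, M0 ≤ M → 1 ≤ Nat.log 2 M ∧
    (2 * (Nat.log 2 M) ^ C + 1) ^ e ≤ M := by
  have h := tendsto_pow_const_div_const_pow_of_one_lt (C * e) (r := (2 : ℝ)) (by norm_num)
  have h2 := h.eventually (ge_mem_nhds (show (0 : ℝ) < 1 / 3 ^ e by positivity))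
  obtain ⟨n0, hn0⟩ := Filter.eventually_atTop.1 h2
  refine ⟨2 ^ (n0 + 1), fun M hM => ?_⟩
  have hM0 : M ≠ 0 := by
    have : 0 < 2 ^ (n0 + 1) := by positivity
    omega
  have hl : n0 + 1 ≤ Nat.log 2 M := (Nat.le_log_iff_pow_le (by norm_num) hM0).2 hM
  have h3 := hn0 (Nat.log 2 M) (by omega)
  have h1 : 1 ≤ Nat.log 2 M := by omega
  refine ⟨h1, ?_⟩
  have h4 : (Nat.log 2 M) ^ (C * e) * 3 ^ e ≤ 2 ^ Nat.log 2 M := by
    rw [div_le_div_iff₀ (by positivity) (by positivity), one_mul] at h3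
    exact_mod_cast h3
  have h5 : 1 ≤ (Nat.log 2 M) ^ C := Nat.one_le_pow _ _ h1
  calc (2 * (Nat.log 2 M) ^ C + 1) ^ e ≤ (3 * (Nat.log 2 M) ^ C) ^ e := by
        apply Nat.pow_le_pow_left; omega
    _ = (Nat.log 2 M) ^ (C * e) * 3 ^ e := by rw [mul_pow, pow_mul]; ring
    _ ≤ 2 ^ Nat.log 2 M := h4
    _ ≤ M := Nat.pow_log_le_self 2 hM0

end Pool.Agent.OPH.H72
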