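import Pool.Agent.OPG.Stmts

set_option autoImplicit false

/-! Squad OPG, row BAD: union bound. -/

namespace Pool.Agent.OPG.H72

open Finset Pool.Agent.OPG

/-- A set of natural numbers within `r` of a real number has at most `2 r + 1` elements. -/
lemma card_near (T : Finset ℕ) (z r : ℝ) (hr : 0 ≤ r) (h : ∀ y ∈ T, |(y : ℝ) - z| ≤ r) :
    (T.card : ℝ) ≤ 2 * r + 1 := by
  rcases T.eq_empty_or_nonempty with he | hne
  · rw [he]; simp; linarith
  have h1 : T ⊆ Finset.Icc (T.min' hne) (T.max' hne) := fun y hy =>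
    Finset.mem_Icc.2 ⟨T.min'_le y hy, T.le_max' y hy⟩
  have h2 := Finset.card_le_card h1
  rw [Nat.card_Icc] at h2
  have h3 := abs_le.1 (h _ (T.min'_mem hne))
  have h4 := abs_le.1 (h _ (T.max'_mem hne))
  have h5 : T.min' hne ≤ T.max' hne := T.min'_le _ (T.max'_mem hne)
  have h6 : (T.card : ℝ) + (T.min' hne : ℕ) ≤ (T.max' hne : ℕ) + 1 := by
    have : T.card + T.min' hne ≤ T.max' hne + 1 := by omega
    exact_mod_cast this
  linarith [h3.1, h4.2]

theorem bad : BadStmt := by
  intro J a b C U Q hQ hC hcov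
  have hsub : Finset.Icc a b ⊆ (Finset.range (J + 1)).biUnion (fun i => U.biUnion (fun u =>
      (Finset.Icc a b).filter (fun Y : ℕ => |(u : ℝ) - C i * Y| ≤ 4 * Q))) := by
    intro Y hY
    obtain ⟨i, hi, u, hu, h⟩ := hcov Y hY
    simp only [Finset.mem_biUnion, Finset.mem_range, Finset.mem_filter]
    exact ⟨i, by omega, u, hu, hY, h⟩
  have h1 : ((Finset.Icc a b).card : ℝ) ≤ ∑ i ∈ Finset.range (J + 1), ∑ u ∈ U, (17 * Q) := by
    have h2 : (Finset.Icc a b).card ≤ ∑ i ∈ Finset.range (J + 1), ∑ u ∈ U,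
        ((Finset.Icc a b).filter (fun Y : ℕ => |(u : ℝ) - C i * Y| ≤ 4 * Q)).card := by
      refine (Finset.card_le_card hsub).trans (Finset.card_biUnion_le.trans ?_)
      exact Finset.sum_le_sum fun i _ => Finset.card_biUnion_le
    have h3 : ((Finset.Icc a b).card : ℝ) ≤ ∑ i ∈ Finset.range (J + 1), ∑ u ∈ U,
        (((Finset.Icc a b).filter (fun Y : ℕ => |(u : ℝ) - C i * Y| ≤ 4 * Q)).card : ℝ) := by
      exact_mod_cast h2
    refine h3.trans (Finset.sum_le_sum fun i hi => Finset.sum_le_sum fun u _ => ?_)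
    have hCi := hC i (by rw [Finset.mem_range] at hi; omega)
    have hCp : 0 < C i := by linarith
    have h4 := card_near ((Finset.Icc a b).filter (fun Y : ℕ => |(u : ℝ) - C i * Y| ≤ 4 * Q))
      (u / C i) (8 * Q) (by linarith) (by
        intro y hy
        have h5 := (Finset.mem_filter.1 hy).2
        have h6 : (y : ℝ) - u / C i = -((u : ℝ) - C i * y) / C i := by
          field_simp
          ring
        rw [h6, abs_div, abs_neg, abs_of_pos hCp, div_le_iff₀ hCp]
        nlinarith)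
    linarith
  rw [Finset.sum_const, Finset.sum_const, Finset.card_range, Nat.card_Icc] at h1
  simp only [nsmul_eq_mul] at h1
  push_cast at h1
  have h2 : (b : ℝ) - a ≤ ((b + 1 - a : ℕ) : ℝ) := by
    have h3 : (b : ℝ) + 1 ≤ ((b + 1 - a : ℕ) : ℝ) + a := by
      have : b + 1 ≤ (b + 1 - a) + a := by omega
      exact_mod_cast this
    linarith
  calc (b : ℝ) - a ≤ ((b + 1 - a : ℕ) : ℝ) := h2
    _ ≤ ((J : ℝ) + 1) * (U.card * (17 * Q)) := h1
    _ = (J + 1) * U.card * (17 * Q) := by ring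

end Pool.Agent.OPG.H72
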