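import Pool.Agent.OPG.Stmts

set_option autoImplicit false

/-! Squad OPG, row CT1: a cut has a number `t`. -/

namespace Pool.Agent.OPG.H72

open Finset Pool.Agent.OPG

theorem ct1 : Ct1Stmt := by
  intro M u hM hM2 hu hMu hcut
  have hu0 : 0 < u := by omega
  obtain ⟨q, hq⟩ : ∃ q : ℕ, q = (M - 1) ^ 2 / u := ⟨_, rfl⟩
  have h1 : q * u ≤ (M - 1) ^ 2 := by rw [hq]; exact Nat.div_mul_le_self _ _
  have h2 : (M - 1) ^ 2 < (q + 1) * u := by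
    have h3 := Nat.div_add_mod ((M - 1) ^ 2) u
    have h4 := Nat.mod_lt ((M - 1) ^ 2) hu0
    rw [← hq] at h3
    nlinarith
  -- an odd `v` with `u v > (M-1)²` and `u (v-2) ≤ (M-1)²`
  obtain ⟨v, hv, hv1, hv2⟩ : ∃ v : ℕ, Odd v ∧ (M - 1) ^ 2 < u * v ∧
      u * v ≤ (M - 1) ^ 2 + 2 * u := by
    rcases Nat.even_or_odd q with he | ho
    · refine ⟨q + 1, he.add_one, by nlinarith, by nlinarith⟩
    · refine ⟨q + 2, ?_, by nlinarith, by nlinarith⟩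
      obtain ⟨r, hr⟩ := ho
      exact ⟨r + 1, by omega⟩
  have h3 := hcut v hv hv1
  have hM1 : ((M - 1 : ℕ) : ℤ) = (M : ℤ) - 1 := by
    rw [Nat.cast_sub (by omega)]; simp
  have h4 : ((M : ℤ) + 1) ^ 2 ≤ ((u : ℤ) + 2) * v := by exact_mod_cast h3
  have h5 : (u : ℤ) * v ≤ ((M : ℤ) - 1) ^ 2 + 2 * u := by
    rw [← hM1]; exact_mod_cast hv2
  refine ⟨(u : ℤ) + (v - 2) - 2 * (M - 1), ?_, ?_⟩
  · nlinarith
  · nlinarith

end Pool.Agent.OPG.H72
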