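import Pool.Agent.OPG.Stmts

set_option autoImplicit false

/-! Squad OPG, row PAT: the number of changes in the window. -/

namespace Pool.Agent.OPG.H72

open Finset Pool.Agent.OPG

lemma near_odd (x : ℝ) (hx : 0 ≤ x) :
    |((2 * ⌊x / 2⌋₊ + 1 : ℕ) : ℝ) - x| ≤ 1 := by
  have h1 : (⌊x / 2⌋₊ : ℝ) ≤ x / 2 := Nat.floor_le (by positivity)
  have h2 : x / 2 < (⌊x / 2⌋₊ : ℝ) + 1 := Nat.lt_floor_add_one _
  push_cast
  rw [abs_le]
  constructor <;> linarith

theorem pat (hptl : PtlStmt) (htel : TelStmt) (hgdb : GdbStmt) (hbad : BadStmt) : PatStmt := by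
  intro R n1 hR hn1
  obtain ⟨C1, B, hC1, hB, hPt⟩ := hptl R n1 (by omega) hn1
  obtain ⟨K, hK⟩ : ∃ K : ℕ, K = 14 * B + 1 := ⟨_, rfl⟩
  obtain ⟨Kq, hKq⟩ : ∃ Kq : ℕ, Kq = 3 * B * K := ⟨_, rfl⟩
  have hK1 : 1 ≤ K := by omega
  have hKodd : Odd K := ⟨7 * B, by omega⟩
  have hKKq : K ≤ Kq := by rw [hKq]; nlinarith
  have h3R : 1 ≤ 3 ^ R := Nat.one_le_pow _ _ (by norm_num)
  refine ⟨100 * C1 * Kq * 3 ^ R, ?_, ?_⟩
  · have hx : 0 < C1 := hC1
    have hy : 0 < Kq := lt_of_lt_of_le hK1 hKKq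
    have : 0 < 100 * C1 * Kq * 3 ^ R := by positivity
    omega
  intro P M A f hCP hPodd hPM hMP hAM hMA hf hfn
  -- basic consequences of `P` large
  have hKq1 : 1 ≤ Kq := hK1.trans hKKq
  have hP1 : C1 ≤ P := by
    refine le_trans ?_ hCP
    calc C1 = C1 * 1 * 1 := by ring
      _ ≤ (100 * C1) * Kq * 3 ^ R := by gcongr; omega
  have hP2 : C1 * K ≤ P := by
    refine le_trans ?_ hCP
    calc C1 * K = C1 * K * 1 := by ring
      _ ≤ (100 * C1) * Kq * 3 ^ R := by gcongr; omega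
  have hP3 : 3 * C1 * 3 ^ R ≤ P := by
    refine le_trans ?_ hCP
    calc 3 * C1 * 3 ^ R = (3 * C1) * 1 * 3 ^ R := by ring
      _ ≤ (100 * C1) * Kq * 3 ^ R := by gcongr; omega
  have hP4 : 48 * Kq ≤ P := by
    refine le_trans ?_ hCP
    calc 48 * Kq = 48 * 1 * Kq * 1 := by ring
      _ ≤ 100 * C1 * Kq * 3 ^ R := by gcongr; omega
  have hP5 : 48 ≤ P := le_trans (by nlinarith) hP4
  have hPpos : 0 < P := by omega
  obtain ⟨J, p, q, c, hJ, hpq, hc0, hcs, hcb, hcJ, hprod⟩ := hPt P hP1 hPodd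
  -- `A` is large
  have hA1 : P ^ 22 ≤ A := by
    have h1 : P ^ R < (A + 1) * P ^ 6 := lt_of_le_of_lt hPM hMA
    have h2 : P ^ 22 * P ^ 6 ≤ P ^ R := by
      rw [← pow_add]; exact Nat.pow_le_pow_right hPpos (by omega)
    have h3 : P ^ 22 * P ^ 6 < (A + 1) * P ^ 6 := lt_of_le_of_lt h2 h1
    have h4 := lt_of_mul_lt_mul_right h3 (Nat.zero_le _)
    omega
  have hA2 : 48 * Kq * P ^ 7 ≤ A := by
    calc 48 * Kq * P ^ 7 ≤ P * P ^ 7 := Nat.mul_le_mul_right _ hP4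
      _ = P ^ 8 := by ring
      _ ≤ P ^ 22 := Nat.pow_le_pow_right hPpos (by norm_num)
      _ ≤ A := hA1
  have hA3 : 48 ≤ A := by
    calc 48 ≤ P := hP5
      _ = P ^ 1 := (pow_one P).symm
      _ ≤ P ^ 22 := Nat.pow_le_pow_right hPpos (by norm_num)
      _ ≤ A := hA1
  have hP6 : 48 ≤ P ^ 6 := by
    calc 48 ≤ P := hP5
      _ = P ^ 1 := (pow_one P).symm
      _ ≤ P ^ 6 := Nat.pow_le_pow_right hPpos (by norm_num)
  -- the real numbers
  obtain ⟨H, hH⟩ : ∃ H : ℕ, H = K * P ^ 6 := ⟨_, rfl⟩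
  have hHodd : Odd H := by rw [hH]; exact hKodd.mul hPodd.pow
  obtain ⟨Q, hQ⟩ : ∃ Q : ℝ, Q = Kq * (P : ℝ) ^ 7 := ⟨_, rfl⟩
  have hPr : (48 : ℝ) ≤ P := by exact_mod_cast hP5
  have hP0 : (0 : ℝ) < P := by linarith
  have hBr : (1 : ℝ) ≤ B := by exact_mod_cast hB
  have hKr : (K : ℝ) = 14 * B + 1 := by rw [hK]; push_cast; ring
  have hKqr : (Kq : ℝ) = 3 * B * K := by rw [hKq]; push_cast; ring
  have hHr : (H : ℝ) = K * (P : ℝ) ^ 6 := by rw [hH]; push_cast; ring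
  have hP6r : (48 : ℝ) ≤ (P : ℝ) ^ 6 := by exact_mod_cast hP6
  have hAr : (48 : ℝ) ≤ A := by exact_mod_cast hA3
  have hAMr : (A : ℝ) * (P : ℝ) ^ 6 ≤ M := by exact_mod_cast hAM
  have hMAr : (M : ℝ) < (A + 1) * (P : ℝ) ^ 6 := by exact_mod_cast hMA
  have hA2r : 48 * Kq * (P : ℝ) ^ 7 ≤ A := by exact_mod_cast hA2
  have hMPr : (M : ℝ) ≤ 3 ^ R * (P : ℝ) ^ R := by exact_mod_cast hMP
  have hK15 : (15 : ℝ) ≤ K := by rw [hKr]; linarith
  have hH0 : (0 : ℝ) < H := by rw [hHr]; positivity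
  have hHB : 14 * (P : ℝ) ^ 6 ≤ H / B := by
    rw [le_div_iff₀ (by linarith), hHr, hKr]
    have : (0 : ℝ) ≤ (P : ℝ) ^ 6 := by positivity
    nlinarith
  have hQ1 : (1 : ℝ) ≤ Q := by
    rw [hQ]
    have h1 : (1 : ℝ) ≤ Kq := by exact_mod_cast hKq1
    have h2 : (1 : ℝ) ≤ (P : ℝ) ^ 7 := one_le_pow₀ (by linarith)
    nlinarith
  have hQA : 4 * Q ≤ A / 12 := by rw [hQ]; linarith
  have hRP : (0 : ℝ) < (P : ℝ) ^ R := by positivity
  have hcJH : |c J - 1| * H ≤ 1 := by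
    have h1 : |c J - 1| * H ≤ C1 / (P : ℝ) ^ R * H :=
      mul_le_mul_of_nonneg_right hcJ hH0.le
    refine h1.trans ?_
    rw [div_mul_eq_mul_div, div_le_one hRP, hHr]
    have h2 : C1 * (K * P ^ 6) ≤ P ^ R := by
      calc C1 * (K * P ^ 6) = (C1 * K) * P ^ 6 := by ring
        _ ≤ P * P ^ 6 := Nat.mul_le_mul_right _ hP2
        _ = P ^ 7 := by ring
        _ ≤ P ^ R := Nat.pow_le_pow_right hPpos (by omega)
    exact_mod_cast h2
  -- the numbers `g i`
  obtain ⟨g, hg⟩ : ∃ g : ℕ → ℕ, ∀ i, g i = if i = 0 ∨ i = J then H else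
    2 * ⌊(c i * H) / 2⌋₊ + 1 := ⟨fun i => if i = 0 ∨ i = J then H else
    2 * ⌊(c i * H) / 2⌋₊ + 1, fun i => rfl⟩
  have hg0 : g 0 = H := by rw [hg]; simp
  have hgJ : g J = H := by rw [hg]; simp
  have hgodd : ∀ i ≤ J, Odd (g i) := by
    intro i _
    rw [hg]
    split_ifs
    · exact hHodd
    · exact ⟨_, rfl⟩
  have hcpos : ∀ i ≤ J, 0 < c i := by
    intro i hi
    have h1 := (hcb i hi).1
    have h2 : (0 : ℝ) < 1 / B := by positivity
    linarith
  have hgc : ∀ i ≤ J, |(g i : ℝ) - c i * H| ≤ 1 := by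
    intro i hi
    by_cases h : i = 0 ∨ i = J
    · have hgi : g i = H := by rw [hg, if_pos h]
      rw [hgi]
      rcases h with h | h
      · rw [h, hc0]; simp
      · rw [h]
        have h1 : (H : ℝ) - c J * H = -((c J - 1) * H) := by ring
        rw [h1, abs_neg, abs_mul, abs_of_pos hH0]
        exact hcJH
    · have hgi : g i = 2 * ⌊(c i * H) / 2⌋₊ + 1 := by rw [hg, if_neg h]
      rw [hgi]
      exact near_odd _ (mul_nonneg (hcpos i hi).le hH0.le)
  have hcH : ∀ i ≤ J, 14 * (P : ℝ) ^ 6 ≤ c i * H := by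
    intro i hi
    have h1 := (hcb i hi).1
    calc 14 * (P : ℝ) ^ 6 ≤ H / B := hHB
      _ = 1 / B * H := by ring
      _ ≤ c i * H := mul_le_mul_of_nonneg_right h1 hH0.le
  have hgl : ∀ i ≤ J, 13 * (P : ℝ) ^ 6 ≤ g i := by
    intro i hi
    have h1 := abs_le.1 (hgc i hi)
    have h2 := hcH i hi
    linarith [h1.1]
  have hgu : ∀ i ≤ J, (g i : ℝ) ≤ B * H + 1 := by
    intro i hi
    have h1 := abs_le.1 (hgc i hi)
    have h2 : c i * H ≤ B * H := mul_le_mul_of_nonneg_right (hcb i hi).2 hH0.le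
    linarith [h1.2]
  have h13 : (0 : ℝ) < 13 * (P : ℝ) ^ 6 := by positivity
  have hgpos : ∀ i ≤ J, (0 : ℝ) < g i := fun i hi => lt_of_lt_of_le h13 (hgl i hi)
  have hCi : ∀ i ≤ J, |c i * H / g i - 1| ≤ 1 / (13 * (P : ℝ) ^ 6) := by
    intro i hi
    have h1 := hgpos i hi
    have h2 : c i * H / g i - 1 = -((g i : ℝ) - c i * H) / g i := by
      field_simp
      ring
    rw [h2, abs_div, abs_neg, abs_of_pos h1]
    exact div_le_div₀ (by norm_num) (hgc i hi) h13 (hgl i hi)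
  have hCi2 : ∀ i ≤ J, 1 / 2 ≤ c i * H / g i := by
    intro i hi
    have h1 := abs_le.1 (hCi i hi)
    have h2 : 1 / (13 * (P : ℝ) ^ 6) ≤ 1 / 2 := by
      apply one_div_le_one_div_of_le (by norm_num)
      linarith
    linarith [h1.1]
  have hstep : ∀ i < J, (p i : ℝ) * g i ≤ Q ∧ (q i : ℝ) * g (i + 1) ≤ Q := by
    intro i hi
    obtain ⟨_, _, hp2, hq2⟩ := hpq i hi
    have hp2r : (p i : ℝ) ≤ 2 * P := by exact_mod_cast hp2
    have hq2r : (q i : ℝ) ≤ 2 * P := by exact_mod_cast hq2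
    have hBH : (2 : ℝ) ≤ B * H := by
      have h1 : (2 : ℝ) ≤ H := by rw [hHr]; nlinarith
      nlinarith
    have hb : 2 * P * (B * H + 1) ≤ Q := by
      have e1 : Q = 3 * (P : ℝ) * (B * H) := by
        rw [hQ, hHr, hKqr]; ring
      rw [e1]
      nlinarith
    constructor
    · calc (p i : ℝ) * g i ≤ 2 * P * (B * H + 1) := by
            apply mul_le_mul hp2r (hgu i hi.le) (Nat.cast_nonneg _) (by positivity)
        _ ≤ Q := hb
    · calc (q i : ℝ) * g (i + 1) ≤ 2 * P * (B * H + 1) := by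
            apply mul_le_mul hq2r (hgu (i + 1) hi) (Nat.cast_nonneg _) (by positivity)
        _ ≤ Q := hb
  -- union bound
  obtain ⟨A4, hA4⟩ : ∃ A4 : ℕ, A4 = A / 4 := ⟨_, rfl⟩
  have hA4l : (A : ℝ) / 6 ≤ A4 := by
    have h1 : A < 4 * A4 + 4 := by omega
    have h2 : (A : ℝ) < 4 * A4 + 4 := by exact_mod_cast h1
    linarith
  have hA4u : 4 * (A4 : ℝ) ≤ A := by
    have h1 : 4 * A4 ≤ A := by omega
    exact_mod_cast h1
  have hba : ((M + 2 * A - A4 : ℕ) : ℝ) = M + 2 * A - A4 := by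
    rw [Nat.cast_sub (by omega)]
    push_cast
    ring
  have hmain := hbad J (M + A + A4) (M + 2 * A - A4) (fun i => c i * H / g i)
    (CH f (M + A) (M + 2 * A)) Q hQ1 hCi2 (by
      intro Y hY
      rw [Finset.mem_Icc] at hY
      by_contra hcon
      push Not at hcon
      have hY1 : (M : ℝ) + A + A4 ≤ Y := by exact_mod_cast hY.1
      have hY2 : (Y : ℝ) ≤ M + 2 * A - A4 := by
        rw [← hba]; exact_mod_cast hY.2
      have hM0 : (0 : ℝ) ≤ M := Nat.cast_nonneg _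
      have hYpos : (0 : ℝ) < Y := by linarith
      have hdev : ∀ i ≤ J, |c i * H / g i * Y - Y| ≤ A / 12 := by
        intro i hi
        have e1 : c i * H / g i * Y - Y = (c i * H / g i - 1) * Y := by ring
        rw [e1, abs_mul, abs_of_pos hYpos]
        calc |c i * H / g i - 1| * Y ≤ 1 / (13 * (P : ℝ) ^ 6) * (M + 2 * A) := by
              apply mul_le_mul (hCi i hi) (by linarith) hYpos.le (by positivity)
          _ ≤ A / 12 := by
              rw [one_div_mul_eq_div, div_le_iff₀ h13]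
              have hx : (48 : ℝ) * 48 ≤ (A : ℝ) * (P : ℝ) ^ 6 :=
                mul_le_mul hAr hP6r (by norm_num) (by linarith)
              have hx2 : 48 * (P : ℝ) ^ 6 ≤ (A : ℝ) * (P : ℝ) ^ 6 :=
                mul_le_mul_of_nonneg_right hAr (by positivity)
              have hx3 : (A : ℝ) * 48 ≤ (A : ℝ) * (P : ℝ) ^ 6 :=
                mul_le_mul_of_nonneg_left hP6r (by linarith)
              nlinarith
      have hσ : ∀ i : ℕ, ∃ σ : ℤˣ, i ≤ J → ∀ n : ℕ, Odd n →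
          |(n : ℝ) - c i * H / g i * Y| ≤ 4 * Q → f n = σ := by
        intro i
        by_cases hi : i ≤ J
        · have hd := abs_le.1 (hdev i hi)
          obtain ⟨σ, hσ⟩ := hgdb f (M + A) (M + 2 * A) Q (c i * H / g i * Y)
            (by push_cast; linarith [hd.1]) (by push_cast; linarith [hd.2])
            (fun u hu => hcon i hi u hu)
          exact ⟨σ, fun _ => hσ⟩
        · exact ⟨1, fun h => absurd h hi⟩
      choose σ hσ using hσ
      have h1 := htel f J H p q g c Q Y σ hf hQ1 hYpos (fun i hi => ⟨(hpq i hi).1, (hpq i hi).2.1⟩)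
        hgodd hg0 hgJ hc0 hcpos hcs hstep (by
          rw [hgJ, mul_div_assoc, div_self hH0.ne', mul_one]
          have e1 : c J * Y - Y = (c J - 1) * Y := by ring
          rw [e1, abs_mul, abs_of_pos hYpos]
          have hAM2 : (A : ℝ) ≤ M := by nlinarith
          calc |c J - 1| * Y ≤ C1 / (P : ℝ) ^ R * (3 * M) := by
                apply mul_le_mul hcJ (by linarith) hYpos.le (by positivity)
            _ ≤ C1 / (P : ℝ) ^ R * (3 * (3 ^ R * (P : ℝ) ^ R)) := by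
                apply mul_le_mul_of_nonneg_left _ (by positivity)
                linarith
            _ = 3 * C1 * 3 ^ R := by field_simp
            _ ≤ P := by exact_mod_cast hP3
            _ ≤ Q := by
                rw [hQ]
                have h1 : (1 : ℝ) ≤ Kq := by exact_mod_cast hKq1
                have h2 : (P : ℝ) ≤ (P : ℝ) ^ 7 := le_self_pow₀ (by linarith) (by norm_num)
                nlinarith) (fun i hi => hσ i hi)
      have h2 := hprod f hf hfn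
      rw [h1] at h2
      exact absurd h2 (by decide))
  -- conclusion
  rw [hba] at hmain
  push_cast at hmain
  have hJr : (J : ℝ) ≤ C1 * P := by exact_mod_cast hJ
  have hC1r : (1 : ℝ) ≤ C1 := by exact_mod_cast hC1
  have hJ1 : (J : ℝ) + 1 ≤ 2 * C1 * P := by nlinarith
  obtain ⟨N, hN⟩ : ∃ N : ℕ, N = (CH f (M + A) (M + 2 * A)).card := ⟨_, rfl⟩
  rw [← hN] at hmain ⊢
  have h3Rr : (1 : ℝ) ≤ 3 ^ R := one_le_pow₀ (by norm_num)
  have hfin : (A : ℝ) ≤ (100 * C1 * Kq * 3 ^ R) * (P : ℝ) ^ 8 * N := by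
    have h1 : (A : ℝ) / 2 ≤ (J + 1) * N * (17 * Q) := by linarith
    have h2 : (J + 1) * (N : ℝ) * (17 * Q) ≤ (2 * C1 * P) * N * (17 * Q) := by
      apply mul_le_mul_of_nonneg_right _ (by linarith)
      apply mul_le_mul_of_nonneg_right hJ1 (Nat.cast_nonneg _)
    have h3 : (2 * C1 * P) * N * (17 * Q) = 34 * C1 * Kq * (P : ℝ) ^ 8 * N := by
      rw [hQ]; ring
    have h4 : 68 * C1 * Kq * (P : ℝ) ^ 8 * N * 1 ≤ 68 * C1 * Kq * (P : ℝ) ^ 8 * N * 3 ^ R :=
      mul_le_mul_of_nonneg_left h3Rr (by positivity)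
    have h5 : (0 : ℝ) ≤ C1 * Kq * (P : ℝ) ^ 8 * N * 3 ^ R := by positivity
    nlinarith
  exact_mod_cast hfin

end Pool.Agent.OPG.H72
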