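import Pool.Agent.Helper1_OPG.CT3
import Pool.Agent.Helper34_OPG.FIN
import Pool.Agent.Helper72_OPG.PAT
import Pool.Agent.Helper72_OPG.CT1
import Pool.Agent.Helper77_OPG.GRD
import Pool.Agent.Helper21_OPG.PTL
import Pool.Agent.Helper27_OPG.TEL
import Pool.Agent.Helper44_OPG.FDL
import Pool.Agent.Helper15_OPG.CT2
import Pool.Agent.Helper68_OPG.CHG
import Pool.Agent.Helper91_OPG.GAP
import Pool.Agent.Helper68_OPG.MAI
import Pool.Agent.Helper17_OPG.BAD
import Pool.Agent.Helper88_OPG.RES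
import Pool.Agent.Helper58_OPG.LST
import Pool.Agent.Helper66_OPG.GDB

set_option autoImplicit false

/-! Squad OPG: assembly of the rows. -/

namespace Pool.Agent.OPG.H72

open Pool.Agent.OPG

theorem ct3Stmt : Ct3Stmt :=
  Pool.Agent.OPG.H1.ct3 ct1 Pool.Agent.OPG.H15.ct2 Pool.Agent.Helper91_OPG.GAP.result

theorem maiStmt : MaiStmt :=
  Pool.Agent.OPG.H68.mai Pool.Agent.OPG.H68.chg ct3Stmt
    (pat (Pool.Agent.OPG.H21.ptl
        (Pool.Agent.OPG.H77.grd Pool.Agent.OPG.H44.fdl Pool.Agent.OPG.H58.lst))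
      Pool.Agent.OPG.H27.tel Pool.Agent.OPG.H66.gdb Pool.Agent.OPG.H17.bad)

theorem resStmt : ResStmt :=
  Pool.Agent.OPG.H88.res (Pool.Agent.OPG.H34.fin maiStmt)

end Pool.Agent.OPG.H72
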